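import Mathlib

set_option autoImplicit false

namespace FourCubes95

/-- If no Vieta move increases a coordinate, the point lies in the compact part. -/
lemma compact_aux {A B C : ℝ} (hA0 : 0 ≤ A) (hB0 : 0 ≤ B) (hC0 : 0 ≤ C) (hA : A ≤ 1)
    (hBA : B ≤ A) (hCB : C ≤ B) (h1 : A * B * (A * B) ≤ A * B * C) :
    A ^ 2 + B ^ 2 + C ^ 2 - 2 * (A * B * C) ≤ 1 := by
  rcases eq_or_lt_of_le hB0 with hB | hB
  · have hC : C = 0 := by linarith
    rw [← hB, hC]
    nlinarith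
  · have hAB : 0 < A * B := mul_pos (lt_of_lt_of_le hB hBA) hB
    have hC1 : A * B ≤ C := le_of_mul_le_mul_left h1 hAB
    have h2 : C ^ 2 - 2 * (A * B * C) ≤ B ^ 2 - 2 * (A * B * B) := by
      have h3 : 0 ≤ (B - C) * (B + C - 2 * (A * B)) := by
        apply mul_nonneg (by linarith)
        have : A * B ≤ B := by nlinarith
        linarith
      nlinarith [h3]
    have h4 : A ^ 2 + B ^ 2 + (B ^ 2 - 2 * (A * B * B)) ≤ A ^ 2 + 2 * A ^ 2 * (1 - A) := by
      have h5 : B ^ 2 * (1 - A) ≤ A ^ 2 * (1 - A) := by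
        apply mul_le_mul_of_nonneg_right _ (by linarith)
        nlinarith
      nlinarith [h5]
    have h6 : A ^ 2 + 2 * A ^ 2 * (1 - A) ≤ 1 := by
      have h7 : 0 ≤ (1 - A) ^ 2 * (1 + 2 * A) := by positivity
      nlinarith [h7]
    linarith

lemma abs_aux {u v : ℝ} (h : |u + v| ≤ |v|) : u ^ 2 + 2 * (u * v) ≤ 0 := by
  have := sq_le_sq.2 h
  nlinarith [this]

lemma compact_unit {a b c : ℝ} (ha : |a| ≤ 1) (hb : |b| ≤ 1) (hc : |c| ≤ 1)
    (h1 : |2 * a * b + c| ≤ |c|) (h2 : |2 * b * c + a| ≤ |a|) (h3 : |2 * a * c + b| ≤ |b|) :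
    a ^ 2 + b ^ 2 + c ^ 2 + 2 * a * b * c ≤ 1 := by
  have e1 := abs_aux h1
  have e2 := abs_aux h2
  have e3 := abs_aux h3
  -- with t = a b c : (ab)^2 + t ≤ 0 etc.
  have t1 : (|a| * |b|) * (|a| * |b|) ≤ -(a * b * c) := by
    have : (|a| * |b|) * (|a| * |b|) = (a * b) ^ 2 := by
      rw [← abs_mul, ← sq, sq_abs]
    nlinarith
  have t2 : (|b| * |c|) * (|b| * |c|) ≤ -(a * b * c) := by
    have : (|b| * |c|) * (|b| * |c|) = (b * c) ^ 2 := by
      rw [← abs_mul, ← sq, sq_abs]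
    nlinarith
  have t3 : (|a| * |c|) * (|a| * |c|) ≤ -(a * b * c) := by
    have : (|a| * |c|) * (|a| * |c|) = (a * c) ^ 2 := by
      rw [← abs_mul, ← sq, sq_abs]
    nlinarith
  have tneg : 0 ≤ -(a * b * c) := le_trans (mul_self_nonneg _) t1
  have tabs : -(a * b * c) = |a| * |b| * |c| := by
    rw [← abs_mul, ← abs_mul, ← abs_neg, abs_of_nonneg tneg]
  rw [tabs] at t1 t2 t3
  have sa : a ^ 2 = |a| ^ 2 := (sq_abs a).symm
  have sb : b ^ 2 = |b| ^ 2 := (sq_abs b).symm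
  have sc : c ^ 2 = |c| ^ 2 := (sq_abs c).symm
  have goal' : |a| ^ 2 + |b| ^ 2 + |c| ^ 2 - 2 * (|a| * |b| * |c|) ≤ 1 := by
    have ha0 := abs_nonneg a
    have hb0 := abs_nonneg b
    have hc0 := abs_nonneg c
    rcases le_total |a| |b| with hab | hab <;> rcases le_total |b| |c| with hbc | hbc <;>
      rcases le_total |a| |c| with hac | hac
    · have := compact_aux hc0 hb0 ha0 hc hbc hab (by linarith [t2]); linarith [this]
    · have := compact_aux hc0 hb0 ha0 hc hbc hab (by linarith [t2]); linarith [this]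
    · have := compact_aux hb0 hc0 ha0 hb hbc hac (by linarith [t2]); linarith [this]
    · have := compact_aux hb0 ha0 hc0 hb hab hac (by linarith [t1]); linarith [this]
    · have := compact_aux hc0 ha0 hb0 hc hac hab (by linarith [t3]); linarith [this]
    · have := compact_aux ha0 hc0 hb0 ha hac hbc (by linarith [t3]); linarith [this]
    · have := compact_aux ha0 hb0 hc0 ha hab hbc (by linarith [t1]); linarith [this]
    · have := compact_aux ha0 hb0 hc0 ha hab hbc (by linarith [t1]); linarith [this]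
  nlinarith [goal', tabs]

/-- Scaled form. -/
lemma compact_scaled {k a b c : ℝ} (hk : 0 < k) (ha : |a| ≤ k) (hb : |b| ≤ k) (hc : |c| ≤ k)
    (h1 : |2 * a * b / k + c| ≤ |c|) (h2 : |2 * b * c / k + a| ≤ |a|)
    (h3 : |2 * a * c / k + b| ≤ |b|) :
    k * (a ^ 2 + b ^ 2 + c ^ 2) + 2 * a * b * c ≤ k ^ 3 := by
  have hdiv : ∀ x : ℝ, |x| ≤ k → |x / k| ≤ 1 := fun x hx => by
    rw [abs_div, abs_of_pos hk, div_le_one hk]; exact hx
  have hcomb : ∀ x y z : ℝ, |2 * x * y / k + z| ≤ |z| →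
      |2 * (x / k) * (y / k) + z / k| ≤ |z / k| := by
    intro x y z h
    have e : 2 * (x / k) * (y / k) + z / k = (2 * x * y / k + z) / k := by
      field_simp
    rw [e, abs_div, abs_div]
    exact div_le_div_of_nonneg_right h (abs_nonneg _)
  have := compact_unit (hdiv a ha) (hdiv b hb) (hdiv c hc) (hcomb a b c h1)
    (hcomb b c a h2) (hcomb a c b h3)
  have e : (a / k) ^ 2 + (b / k) ^ 2 + (c / k) ^ 2 + 2 * (a / k) * (b / k) * (c / k)
      = (k * (a ^ 2 + b ^ 2 + c ^ 2) + 2 * a * b * c) / k ^ 3 := by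
    field_simp
  rw [e, div_le_one (by positivity)] at this
  exact this

/-- Uniform gain in the compact box. -/
lemma exit_gain {k N : ℝ} (hk : 0 < k) (hN : k ^ 3 < N) :
    ∃ δ : ℝ, 0 < δ ∧ ∀ a b c : ℝ, |a| ≤ k → |b| ≤ k → |c| ≤ k →
      k * (a ^ 2 + b ^ 2 + c ^ 2) + 2 * a * b * c = N →
      |c| + δ ≤ |2 * a * b / k + c| ∨ |a| + δ ≤ |2 * b * c / k + a| ∨
        |b| + δ ≤ |2 * a * c / k + b| := by
  set box : Set (ℝ × ℝ × ℝ) := (Set.Icc (-k) k) ×ˢ ((Set.Icc (-k) k) ×ˢ (Set.Icc (-k) k))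
    with hbox
  set G : ℝ × ℝ × ℝ → ℝ := fun p => k * (p.1 ^ 2 + p.2.1 ^ 2 + p.2.2 ^ 2) +
    2 * p.1 * p.2.1 * p.2.2 with hG
  set g : ℝ × ℝ × ℝ → ℝ := fun p => max (|2 * p.1 * p.2.1 / k + p.2.2| - |p.2.2|)
    (max (|2 * p.2.1 * p.2.2 / k + p.1| - |p.1|) (|2 * p.1 * p.2.2 / k + p.2.1| - |p.2.1|))
    with hg
  have hGc : Continuous G := by rw [hG]; fun_prop
  have hgc : Continuous g := by
    rw [hg]
    fun_prop
  have hKc : IsCompact (box ∩ G ⁻¹' {N}) := by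
    apply IsCompact.inter_right
    · exact isCompact_Icc.prod (isCompact_Icc.prod isCompact_Icc)
    · exact isClosed_singleton.preimage hGc
  have hpos : ∀ p ∈ box ∩ G ⁻¹' {N}, 0 < g p := by
    rintro ⟨a, b, c⟩ ⟨⟨ha, hb, hc⟩, hpG⟩
    simp only [Set.mem_Icc, ← abs_le] at ha hb hc
    simp only [hG, Set.mem_preimage, Set.mem_singleton_iff] at hpG
    by_contra hcon
    rw [not_lt] at hcon
    simp only [hg, max_le_iff, sub_nonpos] at hcon
    have := compact_scaled hk ha hb hc hcon.1 hcon.2.1 hcon.2.2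
    linarith
  rcases (box ∩ G ⁻¹' {N}).eq_empty_or_nonempty with hemp | hne
  · refine ⟨1, one_pos, fun a b c ha hb hc h => ?_⟩
    exfalso
    have : ((a, b, c) : ℝ × ℝ × ℝ) ∈ box ∩ G ⁻¹' {N} := by
      refine ⟨⟨abs_le.1 ha, abs_le.1 hb, abs_le.1 hc⟩, ?_⟩
      simpa [hG] using h
    rw [hemp] at this
    exact this
  · obtain ⟨p0, hp0, hmin⟩ := hKc.exists_isMinOn hne hgc.continuousOn
    refine ⟨g p0, hpos p0 hp0, fun a b c ha hb hc h => ?_⟩
    have hmem : ((a, b, c) : ℝ × ℝ × ℝ) ∈ box ∩ G ⁻¹' {N} := by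
      refine ⟨⟨abs_le.1 ha, abs_le.1 hb, abs_le.1 hc⟩, ?_⟩
      simpa [hG] using h
    have h1 : g p0 ≤ g (a, b, c) := hmin hmem
    simp only [hg, le_max_iff] at h1
    rcases h1 with h1 | h1 | h1
    · left; simp only [hg]; linarith
    · right; left; simp only [hg]; linarith
    · right; right; simp only [hg]; linarith

end FourCubes95
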