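import Mathlib

set_option autoImplicit false

namespace FourCubes95

/-- The Fricke-Markov form of a slice. -/
def F (k a b c : ℚ) : ℚ := k * (a ^ 2 + b ^ 2 + c ^ 2) + 2 * a * b * c

/-- Two rational triples differ by `W` times an integer triple. -/
def Near (W : ℤ) (p q : ℚ × ℚ × ℚ) : Prop :=
  ∃ r s t : ℤ, q.1 = p.1 + W * r ∧ q.2.1 = p.2.1 + W * s ∧ q.2.2 = p.2.2 + W * t

/-- Points of the slice that are profinitely approximated by infinitely many others. -/
def Good (k N : ℚ) (a b c : ℚ) : Prop :=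
  ∀ W : ℤ, 0 < W → {q : ℚ × ℚ × ℚ | F k q.1 q.2.1 q.2.2 = N ∧ Near W (a, b, c) q}.Infinite

lemma good_swap12 {k N a b c : ℚ} (h : Good k N b a c) : Good k N a b c := by
  intro W hW
  have h1 := h W hW
  have hinj : Function.Injective (fun q : ℚ × ℚ × ℚ => (q.2.1, q.1, q.2.2)) := by
    intro p q hpq
    simp only [Prod.mk.injEq] at hpq
    ext <;> simp [hpq.1, hpq.2.1, hpq.2.2]
  have h2 := h1.image hinj.injOn
  refine h2.mono ?_
  rintro _ ⟨q, ⟨hF, r, s, t, h3, h4, h5⟩, rfl⟩
  refine ⟨?_, s, r, t, ?_, ?_, ?_⟩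
  · simp only [F] at hF ⊢
    linarith [hF]
  · simpa using h4
  · simpa using h3
  · simpa using h5

lemma good_swap23 {k N a b c : ℚ} (h : Good k N a c b) : Good k N a b c := by
  intro W hW
  have h1 := h W hW
  have hinj : Function.Injective (fun q : ℚ × ℚ × ℚ => (q.1, q.2.2, q.2.1)) := by
    intro p q hpq
    simp only [Prod.mk.injEq] at hpq
    ext <;> simp [hpq.1, hpq.2.1, hpq.2.2]
  have h2 := h1.image hinj.injOn
  refine h2.mono ?_
  rintro _ ⟨q, ⟨hF, r, s, t, h3, h4, h5⟩, rfl⟩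
  refine ⟨?_, r, t, s, ?_, ?_, ?_⟩
  · simp only [F] at hF ⊢
    linarith [hF]
  · simpa using h3
  · simpa using h5
  · simpa using h4

/-- The Vieta move in the last coordinate. -/
def V (k : ℚ) (q : ℚ × ℚ × ℚ) : ℚ × ℚ × ℚ := (q.1, q.2.1, -2 * q.1 * q.2.1 / k - q.2.2)

lemma V_invol (k : ℚ) (q : ℚ × ℚ × ℚ) : V k (V k q) = q := by
  obtain ⟨a, b, c⟩ := q
  simp only [V, Prod.mk.injEq, true_and]
  ring

lemma V_inj (k : ℚ) : Function.Injective (V k) := fun p q h => by
  have := congrArg (V k) h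
  rwa [V_invol, V_invol] at this

lemma F_V {k : ℚ} (hk : k ≠ 0) (a b c : ℚ) : F k a b (-2 * a * b / k - c) = F k a b c := by
  simp only [F]
  field_simp
  ring

/-- Profinite continuity of the Vieta move. -/
lemma good_V {k : ℤ} (hk : 0 < k) {N a b c : ℚ}
    (h : Good k N a b (-2 * a * b / k - c)) : Good k N a b c := by
  intro W hW
  have hkQ : (k : ℚ) ≠ 0 := by exact_mod_cast hk.ne'
  set W' : ℤ := W * k * a.den * b.den with hW'
  have hW'pos : 0 < W' := by
    have h1 : (0 : ℤ) < a.den := by exact_mod_cast a.den_pos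
    have h2 : (0 : ℤ) < b.den := by exact_mod_cast b.den_pos
    positivity
  have h1 := h W' hW'pos
  have h2 := h1.image (V_inj k).injOn
  refine h2.mono ?_
  rintro _ ⟨q, ⟨hF, r, s, t, h3, h4, h5⟩, rfl⟩
  obtain ⟨q1, q2, q3⟩ := q
  simp only at h3 h4 h5 hF
  have ha : a * a.den = a.num := by exact_mod_cast Rat.mul_den_eq_num a
  have hb : b * b.den = b.num := by exact_mod_cast Rat.mul_den_eq_num b
  refine ⟨?_, k * a.den * b.den * r, k * a.den * b.den * s,
    -2 * (a.num * b.den * s + b.num * a.den * r + a.den * b.den * W' * r * s) -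
      k * a.den * b.den * t, ?_, ?_, ?_⟩
  · simp only [V]
    rw [F_V hkQ]
    exact hF
  · simp only [V]
    rw [h3, hW']
    push_cast
    ring
  · simp only [V]
    rw [h4, hW']
    push_cast
    ring
  · simp only [V]
    rw [h3, h4, h5]
    push_cast
    rw [← ha, ← hb]
    have : (W' : ℚ) = W * k * a.den * b.den := by rw [hW']; push_cast; ring
    rw [this]
    field_simp
    ring

end FourCubes95
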