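import Mathlib
import Pool.Agent.FourCubes95.Moves

set_option autoImplicit false

namespace FourCubes95

lemma pell_inf {Δ D : ℤ} (hΔ : 0 < Δ) (hsq : ¬ IsSquare Δ) (hD : 0 < D) :
    {p : ℤ × ℤ | p.1 ^ 2 - Δ * p.2 ^ 2 = 1 ∧ D ∣ p.1 - 1 ∧ D ∣ p.2}.Infinite := by
  have hd : 0 < Δ * D ^ 2 := by positivity
  have hnsq : ¬ IsSquare (Δ * D ^ 2) := by
    rintro ⟨t, ht⟩
    apply hsq
    have h1 : D ^ 2 ∣ t ^ 2 := ⟨Δ, by rw [pow_two t, ← ht]; ring⟩
    have h2 : D ∣ t := (Int.pow_dvd_pow_iff (by norm_num)).1 h1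
    obtain ⟨s, rfl⟩ := h2
    refine ⟨s, ?_⟩
    have h3 : D ^ 2 * Δ = D ^ 2 * (s * s) := by linarith [ht]
    exact mul_left_cancel₀ (by positivity) h3
  obtain ⟨a, ha⟩ := Pell.IsFundamental.exists_of_not_isSquare hd hnsq
  have hmono := ha.y_strictMono
  have hinj : Function.Injective
      (fun n : ℕ => (((a ^ ((2 : ℤ) * n)).x, D * (a ^ ((2 : ℤ) * n)).y) : ℤ × ℤ)) := by
    intro m n hmn
    simp only [Prod.mk.injEq] at hmn
    have h1 : (a ^ ((2 : ℤ) * m)).y = (a ^ ((2 : ℤ) * n)).y :=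
      mul_left_cancel₀ hD.ne' hmn.2
    have h2 := hmono.injective h1
    omega
  refine (Set.infinite_range_of_injective hinj).mono ?_
  rintro _ ⟨n, rfl⟩
  refine ⟨?_, ?_, Dvd.intro _ rfl⟩
  · have := (a ^ ((2 : ℤ) * n)).prop
    simp only
    linarith [this]
  · simp only
    have h2 : a ^ ((2 : ℤ) * n) = a ^ (n : ℤ) * a ^ (n : ℤ) := by
      rw [← zpow_add]; congr 1; ring
    rw [h2, Pell.Solution₁.x_mul]
    have hp := (a ^ (n : ℤ)).prop
    refine ⟨2 * Δ * D * (a ^ (n : ℤ)).y ^ 2, ?_⟩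
    linarith [hp]

/-- The hyperbolic case: the conic through the point with last coordinate fixed. -/
lemma good_of_hyp {k : ℤ} (hk : 0 < k) {a b c : ℚ} (hc : (k : ℚ) ^ 2 < c ^ 2)
    (hns : ¬ IsSquare (c ^ 2 - (k : ℚ) ^ 2)) (hab : ¬ (a = 0 ∧ b = 0)) {N : ℚ}
    (hN : F k a b c = N) : Good k N a b c := by
  intro W hW
  set g : ℤ := c.num with hg
  set h : ℤ := (c.den : ℤ) with hh
  have hhpos : 0 < h := by rw [hh]; exact_mod_cast c.den_pos
  have hhQ : (h : ℚ) ≠ 0 := by exact_mod_cast hhpos.ne'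
  have hcg : c * h = g := by
    rw [hg, hh]; exact_mod_cast Rat.mul_den_eq_num c
  set K : ℤ := h * k with hK
  set Δ : ℤ := g ^ 2 - K ^ 2 with hΔdef
  have hΔQ : (Δ : ℚ) = (c ^ 2 - (k : ℚ) ^ 2) * (h : ℚ) ^ 2 := by
    rw [hΔdef, hK]; push_cast; rw [← hcg]; ring
  have hΔpos : 0 < Δ := by
    have : (0 : ℚ) < Δ := by
      rw [hΔQ]
      have : 0 < c ^ 2 - (k : ℚ) ^ 2 := by linarith
      have h2 : (0 : ℚ) < (h : ℚ) ^ 2 := by positivity
      positivity
    exact_mod_cast this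
  have hΔns : ¬ IsSquare Δ := by
    rintro ⟨t, ht⟩
    apply hns
    refine ⟨(t : ℚ) / h, ?_⟩
    have h3 : (Δ : ℚ) = t * t := by exact_mod_cast ht
    field_simp
    linarith [h3, hΔQ]
  set D : ℤ := W * a.den * b.den with hD
  have hDpos : 0 < D := by
    have h1 : (0 : ℤ) < a.den := by exact_mod_cast a.den_pos
    have h2 : (0 : ℤ) < b.den := by exact_mod_cast b.den_pos
    positivity
  have hinf := pell_inf hΔpos hΔns hDpos
  -- the form does not vanish
  have hform : (K : ℚ) * a ^ 2 + 2 * g * a * b + K * b ^ 2 ≠ 0 := by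
    intro h0
    have h1 : ((K : ℚ) * a + g * b) ^ 2 = (Δ : ℚ) * b ^ 2 := by
      rw [hΔdef]; push_cast; linear_combination (K : ℚ) * h0
    by_cases hb : b = 0
    · subst hb
      have hK0 : (K : ℚ) ≠ 0 := by
        rw [hK]; push_cast; exact mul_ne_zero hhQ (by exact_mod_cast hk.ne')
      have : a ^ 2 = 0 := by
        have : (K : ℚ) * a ^ 2 = 0 := by linarith [h0]
        exact (mul_eq_zero.1 this).resolve_left hK0
      exact hab ⟨pow_eq_zero_iff (by norm_num) |>.1 this, rfl⟩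
    · apply hΔns
      rw [← Rat.isSquare_intCast_iff]
      refine ⟨((K : ℚ) * a + g * b) / b, ?_⟩
      field_simp
      linarith [h1]
  set f : ℤ × ℤ → ℚ × ℚ × ℚ := fun p =>
    (((p.1 : ℚ) - g * p.2) * a - K * p.2 * b, K * p.2 * a + (p.1 + g * p.2) * b, c) with hf
  have hfinj : Function.Injective f := by
    rintro ⟨u, v⟩ ⟨u', v'⟩ huv
    simp only [hf, Prod.mk.injEq, and_true] at huv
    obtain ⟨e1, e2⟩ := huv
    have e3 : ((v : ℚ) - v') * ((K : ℚ) * a ^ 2 + 2 * g * a * b + K * b ^ 2) = 0 := by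
      linear_combination a * e2 - b * e1
    have e4 : (v : ℚ) = v' := by
      have := (mul_eq_zero.1 e3).resolve_right hform
      linarith
    have e5 : ((u : ℚ) - u') * a = 0 := by
      rw [e4] at e1; linear_combination e1
    have e6 : ((u : ℚ) - u') * b = 0 := by
      rw [e4] at e2; linear_combination e2
    have e7 : (u : ℚ) = u' := by
      by_contra hne
      have hne' : (u : ℚ) - u' ≠ 0 := sub_ne_zero.2 hne
      exact hab ⟨(mul_eq_zero.1 e5).resolve_left hne', (mul_eq_zero.1 e6).resolve_left hne'⟩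
    have e8 : u = u' := by exact_mod_cast e7
    have e9 : v = v' := by exact_mod_cast e4
    rw [e8, e9]
  refine (hinf.image hfinj.injOn).mono ?_
  rintro _ ⟨⟨u, v⟩, ⟨hp, ⟨s, hs⟩, ⟨t, ht⟩⟩, rfl⟩
  simp only at hp hs ht
  have ha : a * a.den = a.num := by exact_mod_cast Rat.mul_den_eq_num a
  have hb : b * b.den = b.num := by exact_mod_cast Rat.mul_den_eq_num b
  have hpQ : (u : ℚ) ^ 2 - Δ * (v : ℚ) ^ 2 = 1 := by exact_mod_cast hp
  have hKQ : (K : ℚ) = h * k := by rw [hK]; push_cast; ring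
  refine ⟨?_, (s - g * t) * a.num * b.den - K * t * a.den * b.num,
    K * t * a.num * b.den + (s + g * t) * a.den * b.num, 0, ?_, ?_, ?_⟩
  · rw [← hN]
    simp only [hf, F]
    have h1 : (k : ℚ) * ((((u : ℚ) - g * v) * a - K * v * b) ^ 2 +
        (K * v * a + (u + g * v) * b) ^ 2) +
        2 * (((u : ℚ) - g * v) * a - K * v * b) * (K * v * a + (u + g * v) * b) * c
        = k * (a ^ 2 + b ^ 2) + 2 * a * b * c := by
      have h2 : (h : ℚ) * ((k : ℚ) * ((((u : ℚ) - g * v) * a - K * v * b) ^ 2 +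
        (K * v * a + (u + g * v) * b) ^ 2) +
        2 * (((u : ℚ) - g * v) * a - K * v * b) * (K * v * a + (u + g * v) * b) * c)
        = h * (k * (a ^ 2 + b ^ 2) + 2 * a * b * c) := by
        have hΔ' : (Δ : ℚ) = g ^ 2 - K ^ 2 := by rw [hΔdef]; push_cast; ring
        rw [hΔ'] at hpQ
        have hk' : (h : ℚ) * k = K := hKQ.symm
        have hcg' : c * h = g := hcg
        calc _ = (h * k : ℚ) * ((((u : ℚ) - g * v) * a - K * v * b) ^ 2 +
              (K * v * a + (u + g * v) * b) ^ 2) +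
              2 * (((u : ℚ) - g * v) * a - K * v * b) * (K * v * a + (u + g * v) * b) * (c * h) := by
                ring
          _ = ((h * k : ℚ) * (a ^ 2 + b ^ 2) + 2 * a * b * (c * h)) := by
                rw [hk', hcg']
                linear_combination (K * a ^ 2 + 2 * g * a * b + K * b ^ 2 : ℚ) * hpQ
          _ = _ := by ring
      exact mul_left_cancel₀ hhQ h2
    linear_combination h1
  · simp only [hf]
    have hu : (u : ℚ) = 1 + D * s := by
      have : u = 1 + D * s := by linarith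
      exact_mod_cast this
    have hv : (v : ℚ) = D * t := by exact_mod_cast ht
    have hDQ : (D : ℚ) = W * a.den * b.den := by rw [hD]; push_cast; ring
    rw [hu, hv, hDQ]
    push_cast
    rw [← ha, ← hb]
    ring
  · simp only [hf]
    have hu : (u : ℚ) = 1 + D * s := by
      have : u = 1 + D * s := by linarith
      exact_mod_cast this
    have hv : (v : ℚ) = D * t := by exact_mod_cast ht
    have hDQ : (D : ℚ) = W * a.den * b.den := by rw [hD]; push_cast; ring
    rw [hu, hv, hDQ]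
    push_cast
    rw [← ha, ← hb]
    ring
  · simp [hf]

end FourCubes95
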