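import Mathlib
import Pool.Agent.FourCubes95.PellPart
import Pool.Agent.FourCubes95.Exit

set_option autoImplicit false

namespace FourCubes95

/-- Three times a `3`-integral rational. -/
def T3 (q : ℚ) : Prop := ∃ g h : ℤ, ¬ (3 ∣ h) ∧ q = 3 * g / h

lemma T3.h_ne {h : ℤ} (hh : ¬ (3 ∣ h)) : (h : ℚ) ≠ 0 := by
  intro h0
  have : h = 0 := by exact_mod_cast h0
  exact hh (this ▸ dvd_zero 3)

lemma three_prime : Prime (3 : ℤ) := Int.prime_three

lemma T3.vieta {k : ℤ} (hk : ¬ (3 ∣ k)) {a b c : ℚ} (ha : T3 a) (hb : T3 b) (hc : T3 c) :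
    T3 (-2 * a * b / k - c) := by
  obtain ⟨a1, a2, ha2, rfl⟩ := ha
  obtain ⟨b1, b2, hb2, rfl⟩ := hb
  obtain ⟨c1, c2, hc2, rfl⟩ := hc
  refine ⟨-6 * a1 * b1 * c2 - c1 * a2 * b2 * k, a2 * b2 * c2 * k, ?_, ?_⟩
  · intro h
    rcases three_prime.dvd_or_dvd h with h | h
    · rcases three_prime.dvd_or_dvd h with h | h
      · rcases three_prime.dvd_or_dvd h with h | h
        · exact ha2 h
        · exact hb2 h
      · exact hc2 h
    · exact hk h
  · have e1 := T3.h_ne ha2
    have e2 := T3.h_ne hb2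
    have e3 := T3.h_ne hc2
    have e4 := T3.h_ne hk
    push_cast
    field_simp
    ring

lemma sq_mod3 (t : ℤ) : t ^ 2 % 3 = 0 ∨ t ^ 2 % 3 = 1 := by
  have h : t % 3 = 0 ∨ t % 3 = 1 ∨ t % 3 = 2 := by omega
  rcases h with h | h | h <;> simp [pow_two, Int.mul_emod, h]

lemma sq_mod3_of_not {t : ℤ} (ht : ¬ (3 ∣ t)) : t ^ 2 % 3 = 1 := by
  have h : t % 3 = 1 ∨ t % 3 = 2 := by omega
  rcases h with h | h <;> simp [pow_two, Int.mul_emod, h]

lemma T3.not_isSquare {k : ℤ} (hk : ¬ (3 ∣ k)) {c : ℚ} (hc : T3 c) :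
    ¬ IsSquare (c ^ 2 - (k : ℚ) ^ 2) := by
  obtain ⟨g, h, hh, rfl⟩ := hc
  rintro ⟨r, hr⟩
  have e1 := T3.h_ne hh
  have h1 : IsSquare (((9 * g ^ 2 - k ^ 2 * h ^ 2 : ℤ)) : ℚ) := by
    refine ⟨r * h, ?_⟩
    push_cast
    have : (9 * (g : ℚ) ^ 2 - k ^ 2 * h ^ 2) = ((3 * (g : ℚ) / h) ^ 2 - (k : ℚ) ^ 2) * h ^ 2 := by
      field_simp
      ring
    rw [this, hr]
    ring
  rw [Rat.isSquare_intCast_iff] at h1
  obtain ⟨t, ht⟩ := h1
  have h2 := sq_mod3 t
  have h3 := sq_mod3_of_not hk
  have h4 := sq_mod3_of_not hh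
  have h5 : (k ^ 2 * h ^ 2) % 3 = 1 := by
    rw [Int.mul_emod, h3, h4]; norm_num
  have h6 : t ^ 2 = 9 * g ^ 2 - k ^ 2 * h ^ 2 := by rw [pow_two]; exact ht.symm
  omega

/-- At least one coordinate is larger than `k` in absolute value. -/
lemma good_of_large {k : ℤ} (hk : 0 < k) (hk3 : ¬ (3 ∣ k)) {a b c : ℚ}
    (ha : T3 a) (hb : T3 b) (hc : T3 c)
    (n1 : ¬ (a = 0 ∧ b = 0)) (n2 : ¬ (b = 0 ∧ c = 0)) (n3 : ¬ (a = 0 ∧ c = 0))
    (hl : (k : ℚ) < |a| ∨ (k : ℚ) < |b| ∨ (k : ℚ) < |c|) {N : ℚ} (hN : F k a b c = N) :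
    Good k N a b c := by
  have hkQ : (0 : ℚ) < k := by exact_mod_cast hk
  have hsq : ∀ x : ℚ, (k : ℚ) < |x| → (k : ℚ) ^ 2 < x ^ 2 := fun x hx => by
    rw [← sq_abs x]
    exact pow_lt_pow_left₀ hx hkQ.le (by norm_num)
  rcases hl with h | h | h
  · -- a large: move a to the last place
    apply good_swap12
    apply good_swap23
    -- now Good k N b c a
    apply good_of_hyp hk (hsq a h) (ha.not_isSquare hk3) n2
    rw [← hN]; simp only [F]; ring
  · apply good_swap23
    apply good_of_hyp hk (hsq b h) (hb.not_isSquare hk3) n3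
    rw [← hN]; simp only [F]; ring
  · exact good_of_hyp hk (hsq c h) (hc.not_isSquare hk3) n1 hN

/-- The unbounded case. -/
lemma good_of_unbalanced {k : ℤ} (hk : 0 < k) (hk3 : ¬ (3 ∣ k)) {N : ℚ}
    (hkN : (k : ℚ) ^ 3 < N) {a b c : ℚ} (ha : T3 a) (hb : T3 b) (hc : T3 c)
    (n1 : ¬ (a = 0 ∧ b = 0)) (n2 : ¬ (b = 0 ∧ c = 0)) (n3 : ¬ (a = 0 ∧ c = 0))
    (hN : F k a b c = N) : Good k N a b c := by
  have hkR : (0 : ℝ) < k := by exact_mod_cast hk
  have hkNR : ((k : ℝ)) ^ 3 < (N : ℝ) := by exact_mod_cast hkN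
  have hkQ : (k : ℚ) ≠ 0 := by exact_mod_cast hk.ne'
  obtain ⟨δ, hδ, hgain⟩ := exit_gain hkR hkNR
  have key : ∀ n : ℕ, ∀ a b c : ℚ, T3 a → T3 b → T3 c →
      ¬ (a = 0 ∧ b = 0) → ¬ (b = 0 ∧ c = 0) → ¬ (a = 0 ∧ c = 0) →
      F k a b c = N → 3 * (k : ℝ) - n * δ < |(a : ℝ)| + |(b : ℝ)| + |(c : ℝ)| →
      Good k N a b c := by
    intro n
    induction n with
    | zero =>
      intro a b c ha hb hc n1 n2 n3 hN hsum
      apply good_of_large hk hk3 ha hb hc n1 n2 n3 _ hN
      by_contra hcon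
      rw [not_or, not_or, not_lt, not_lt, not_lt] at hcon
      obtain ⟨h1, h2, h3⟩ := hcon
      have h1' : |(a : ℝ)| ≤ k := by exact_mod_cast h1
      have h2' : |(b : ℝ)| ≤ k := by exact_mod_cast h2
      have h3' : |(c : ℝ)| ≤ k := by exact_mod_cast h3
      simp only [Nat.cast_zero, zero_mul, sub_zero] at hsum
      linarith
    | succ n ih =>
      intro a b c ha hb hc n1 n2 n3 hN hsum
      by_cases hl : (k : ℚ) < |a| ∨ (k : ℚ) < |b| ∨ (k : ℚ) < |c|
      · exact good_of_large hk hk3 ha hb hc n1 n2 n3 hl hN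
      · rw [not_or, not_or, not_lt, not_lt, not_lt] at hl
        obtain ⟨h1, h2, h3⟩ := hl
        have h1' : |(a : ℝ)| ≤ k := by exact_mod_cast h1
        have h2' : |(b : ℝ)| ≤ k := by exact_mod_cast h2
        have h3' : |(c : ℝ)| ≤ k := by exact_mod_cast h3
        have hNR : (k : ℝ) * ((a : ℝ) ^ 2 + (b : ℝ) ^ 2 + (c : ℝ) ^ 2) + 2 * a * b * c
            = (N : ℝ) := by
          have := hN
          simp only [F] at this
          exact_mod_cast this
        push_cast at hsum
        rcases hgain a b c h1' h2' h3' hNR with h | h | h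
        · -- move c
          apply good_V hk
          apply ih a b _ ha hb (T3.vieta hk3 ha hb hc) n1
          · rintro ⟨hb0, hc0⟩
            apply n2
            refine ⟨hb0, ?_⟩
            rw [hb0] at hc0
            simpa using hc0
          · rintro ⟨ha0, hc0⟩
            apply n3
            refine ⟨ha0, ?_⟩
            rw [ha0] at hc0
            simpa using hc0
          · rw [F_V hkQ]; exact hN
          · have e : |((-2 * a * b / k - c : ℚ) : ℝ)| = |2 * (a : ℝ) * b / k + c| := by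
              rw [← abs_neg]; push_cast; congr 1; ring
            rw [e]
            linarith
        · -- move a : bring to (b, c, a)
          apply good_swap12
          apply good_swap23
          apply good_V hk
          apply good_swap23
          apply good_swap12
          have hgoal := ih (-2 * b * c / k - a) b c (T3.vieta hk3 hb hc ha) hb hc
          apply hgoal
          · rintro ⟨ha0, hb0⟩
            apply n1
            refine ⟨?_, hb0⟩
            rw [hb0] at ha0
            simpa using ha0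
          · exact n2
          · rintro ⟨ha0, hc0⟩
            apply n3
            refine ⟨?_, hc0⟩
            rw [hc0] at ha0
            simpa using ha0
          · have e := F_V (k := (k : ℚ)) hkQ b c a
            rw [← hN]
            simp only [F] at e ⊢
            linarith
          · have e : |((-2 * b * c / k - a : ℚ) : ℝ)| = |2 * (b : ℝ) * c / k + a| := by
              rw [← abs_neg]; push_cast; congr 1; ring
            rw [e]
            linarith
        · -- move b
          apply good_swap23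
          apply good_V hk
          apply good_swap23
          apply ih a (-2 * a * c / k - b) c ha (T3.vieta hk3 ha hc hb) hc
          · rintro ⟨ha0, hb0⟩
            apply n1
            refine ⟨ha0, ?_⟩
            rw [ha0] at hb0
            simpa using hb0
          · rintro ⟨hb0, hc0⟩
            apply n2
            refine ⟨?_, hc0⟩
            rw [hc0] at hb0
            simpa using hb0
          · exact n3
          · have e := F_V (k := (k : ℚ)) hkQ a c b
            rw [← hN]
            simp only [F] at e ⊢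
            linarith
          · have e : |((-2 * a * c / k - b : ℚ) : ℝ)| = |2 * (a : ℝ) * c / k + b| := by
              rw [← abs_neg]; push_cast; congr 1; ring
            rw [e]
            linarith
  obtain ⟨n, hn⟩ := exists_nat_gt (3 * (k : ℝ) / δ)
  apply key n a b c ha hb hc n1 n2 n3 hN
  have h1 : 3 * (k : ℝ) < n * δ := by
    rw [div_lt_iff₀ hδ] at hn
    exact hn
  have h2 := abs_nonneg (a : ℝ)
  have h3 := abs_nonneg (b : ℝ)
  have h4 := abs_nonneg (c : ℝ)
  linarith

end FourCubes95
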