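import Mathlib
import Pool.Agent.FourCubes95.Unbalanced

set_option autoImplicit false

namespace FourCubes95

/-- The solution set. -/
def S (m : ℤ) : Set (ℤ × ℤ × ℤ × ℤ) :=
  {q | q.1 ^ 3 + q.2.1 ^ 3 + q.2.2.1 ^ 3 + q.2.2.2 ^ 3 = m}

lemma S_neg {m : ℤ} (h : (S (-m)).Infinite) : (S m).Infinite := by
  have hinj : Function.Injective
      (fun q : ℤ × ℤ × ℤ × ℤ => (-q.1, -q.2.1, -q.2.2.1, -q.2.2.2)) := by
    rintro ⟨a, b, c, d⟩ ⟨a', b', c', d'⟩ h
    simp only [Prod.mk.injEq, neg_inj] at h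
    simp only [Prod.mk.injEq]
    exact h
  refine (h.image hinj.injOn).mono ?_
  rintro _ ⟨⟨x, y, z, w⟩, hq, rfl⟩
  simp only [S, Set.mem_setOf_eq] at hq ⊢
  linarith

lemma cube_mod9 (x : ℤ) : (x % 3 = 0 ∧ x ^ 3 % 9 = 0) ∨ (x % 3 = 1 ∧ x ^ 3 % 9 = 1) ∨
    (x % 3 = 2 ∧ x ^ 3 % 9 = 8) := by
  have h : x % 9 = 0 ∨ x % 9 = 1 ∨ x % 9 = 2 ∨ x % 9 = 3 ∨ x % 9 = 4 ∨ x % 9 = 5 ∨ x % 9 = 6 ∨
    x % 9 = 7 ∨ x % 9 = 8 := by omega
  rcases h with h | h | h | h | h | h | h | h | h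
  · left; exact ⟨by omega, by simp [pow_succ, Int.mul_emod, h]⟩
  · right; left; exact ⟨by omega, by simp [pow_succ, Int.mul_emod, h]⟩
  · right; right; exact ⟨by omega, by simp [pow_succ, Int.mul_emod, h]⟩
  · left; exact ⟨by omega, by simp [pow_succ, Int.mul_emod, h]⟩
  · right; left; exact ⟨by omega, by simp [pow_succ, Int.mul_emod, h]⟩
  · right; right; exact ⟨by omega, by simp [pow_succ, Int.mul_emod, h]⟩
  · left; exact ⟨by omega, by simp [pow_succ, Int.mul_emod, h]⟩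
  · right; left; exact ⟨by omega, by simp [pow_succ, Int.mul_emod, h]⟩
  · right; right; exact ⟨by omega, by simp [pow_succ, Int.mul_emod, h]⟩

/-- In the two open classes all four entries are congruent to the same unit modulo three. -/
lemma residues {m x y z w : ℤ} (hm : m % 9 = 4 ∨ m % 9 = 5)
    (h : x ^ 3 + y ^ 3 + z ^ 3 + w ^ 3 = m) :
    (x % 3 = 1 ∧ y % 3 = 1 ∧ z % 3 = 1 ∧ w % 3 = 1) ∨
      (x % 3 = 2 ∧ y % 3 = 2 ∧ z % 3 = 2 ∧ w % 3 = 2) := by
  have h1 := cube_mod9 x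
  have h2 := cube_mod9 y
  have h3 := cube_mod9 z
  have h4 := cube_mod9 w
  omega

lemma T3_of_dvd {a : ℤ} (h : 3 ∣ a) : T3 (a : ℚ) := by
  obtain ⟨g, rfl⟩ := h
  exact ⟨g, 1, by norm_num, by push_cast; ring⟩

/-- From a good point back to the cubes. -/
lemma infinite_of_good {x y z w m : ℤ}
    (hgood : Good ((x + y + z + w : ℤ) : ℚ)
      ((16 * (m : ℚ) - ((x + y + z + w : ℤ) : ℚ) ^ 3) / 3)
      ((x + y - z - w : ℤ) : ℚ) ((x - y + z - w : ℤ) : ℚ) ((x - y - z + w : ℤ) : ℚ)) :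
    (S m).Infinite := by
  intro hfin
  have h4 := hgood 4 (by norm_num)
  apply h4
  refine (hfin.image (fun q : ℤ × ℤ × ℤ × ℤ =>
    (((q.1 + q.2.1 - q.2.2.1 - q.2.2.2 : ℤ) : ℚ), ((q.1 - q.2.1 + q.2.2.1 - q.2.2.2 : ℤ) : ℚ),
      ((q.1 - q.2.1 - q.2.2.1 + q.2.2.2 : ℤ) : ℚ)))).subset ?_
  rintro ⟨q1, q2, q3⟩ ⟨hF, r, s, t, h1, h2, h3⟩
  simp only at hF h1 h2 h3
  refine ⟨(x + r + s + t, y + r - s - t, z - r + s - t, w - r - s + t), ?_, ?_⟩
  · simp only [S, Set.mem_setOf_eq]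
    rw [h1, h2, h3] at hF
    simp only [F] at hF
    push_cast at hF
    have : (((x + r + s + t) ^ 3 + (y + r - s - t) ^ 3 + (z - r + s - t) ^ 3 +
        (w - r - s + t) ^ 3 : ℤ) : ℚ) = (m : ℚ) := by
      push_cast
      linear_combination (3 / 16 : ℚ) * hF
    exact_mod_cast this
  · simp only [Prod.mk.injEq]
    rw [h1, h2, h3]
    refine ⟨?_, ?_, ?_⟩ <;> push_cast <;> ring

lemma level {x y z w m : ℤ} (h : x ^ 3 + y ^ 3 + z ^ 3 + w ^ 3 = m) :
    F ((x + y + z + w : ℤ) : ℚ) ((x + y - z - w : ℤ) : ℚ) ((x - y + z - w : ℤ) : ℚ)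
      ((x - y - z + w : ℤ) : ℚ) = (16 * (m : ℚ) - ((x + y + z + w : ℤ) : ℚ) ^ 3) / 3 := by
  rw [← h]
  simp only [F]
  push_cast
  ring

/-- Positive sum: an admissible quadruple gives infinitely many. -/
lemma infinite_pos {m x y z w : ℤ} (hm : m % 9 = 4 ∨ m % 9 = 5)
    (h : x ^ 3 + y ^ 3 + z ^ 3 + w ^ 3 = m) (hk : 0 < x + y + z + w)
    (hne : ¬ ((x = y ∧ z = w) ∨ (x = z ∧ y = w) ∨ (x = w ∧ y = z)))
    (hor : (x + y) * (z + w) < 0 ∨ (x + z) * (y + w) < 0 ∨ (x + w) * (y + z) < 0 ∨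
      (x + y + z + w) ^ 3 < 4 * m) : (S m).Infinite := by
  apply infinite_of_good (x := x) (y := y) (z := z) (w := w)
  have hres := residues hm h
  have hk3 : ¬ (3 ∣ x + y + z + w) := by omega
  have ta : T3 ((x + y - z - w : ℤ) : ℚ) := T3_of_dvd (by omega)
  have tb : T3 ((x - y + z - w : ℤ) : ℚ) := T3_of_dvd (by omega)
  have tc : T3 ((x - y - z + w : ℤ) : ℚ) := T3_of_dvd (by omega)
  have n1 : ¬ (((x + y - z - w : ℤ) : ℚ) = 0 ∧ ((x - y + z - w : ℤ) : ℚ) = 0) := by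
    rintro ⟨h1, h2⟩
    have h1' : x + y - z - w = 0 := by exact_mod_cast h1
    have h2' : x - y + z - w = 0 := by exact_mod_cast h2
    apply hne
    right; right
    constructor <;> omega
  have n2 : ¬ (((x - y + z - w : ℤ) : ℚ) = 0 ∧ ((x - y - z + w : ℤ) : ℚ) = 0) := by
    rintro ⟨h1, h2⟩
    have h1' : x - y + z - w = 0 := by exact_mod_cast h1
    have h2' : x - y - z + w = 0 := by exact_mod_cast h2
    apply hne
    left
    constructor <;> omega
  have n3 : ¬ (((x + y - z - w : ℤ) : ℚ) = 0 ∧ ((x - y - z + w : ℤ) : ℚ) = 0) := by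
    rintro ⟨h1, h2⟩
    have h1' : x + y - z - w = 0 := by exact_mod_cast h1
    have h2' : x - y - z + w = 0 := by exact_mod_cast h2
    apply hne
    right; left
    constructor <;> omega
  have hlev := level h
  have large : ∀ A C : ℤ, A * C < 0 → A + C = x + y + z + w → x + y + z + w < |A - C| := by
    intro A C hAC hsum
    rw [← hsum]
    rw [← hsum] at hk
    have h1 : (A + C) ^ 2 < (A - C) ^ 2 := by nlinarith
    have h2 := sq_lt_sq.1 h1
    rwa [abs_of_pos hk] at h2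
  rcases hor with h1 | h1 | h1 | h1
  · apply good_of_large hk hk3 ta tb tc n1 n2 n3 _ hlev
    left
    have := large _ _ h1 (by ring)
    have e : (x + y - z - w : ℤ) = (x + y) - (z + w) := by ring
    rw [e]
    exact_mod_cast this
  · apply good_of_large hk hk3 ta tb tc n1 n2 n3 _ hlev
    right; left
    have := large _ _ h1 (by ring)
    have e : (x - y + z - w : ℤ) = (x + z) - (y + w) := by ring
    rw [e]
    exact_mod_cast this
  · apply good_of_large hk hk3 ta tb tc n1 n2 n3 _ hlev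
    right; right
    have := large _ _ h1 (by ring)
    have e : (x - y - z + w : ℤ) = (x + w) - (y + z) := by ring
    rw [e]
    exact_mod_cast this
  · apply good_of_unbalanced hk hk3 _ ta tb tc n1 n2 n3 hlev
    have h2 : (((x + y + z + w : ℤ)) : ℚ) ^ 3 < 4 * (m : ℚ) := by exact_mod_cast h1
    linarith

/-- A pair-sum product that is positive bounds everything. -/
lemma box_of_pos {m x y z w : ℤ} (h : x ^ 3 + y ^ 3 + z ^ 3 + w ^ 3 = m)
    (hp : 0 < (x + y) * (z + w)) : |x| ≤ 4 * |m| ∧ |y| ≤ 4 * |m| ∧ |z| ≤ 4 * |m| ∧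
      |w| ≤ 4 * |m| := by
  -- reduce to positive sums by symmetry
  have main : ∀ x y z w m : ℤ, x ^ 3 + y ^ 3 + z ^ 3 + w ^ 3 = m → 0 < x + y → 0 < z + w →
      |x| ≤ 4 * m ∧ |y| ≤ 4 * m ∧ |z| ≤ 4 * m ∧ |w| ≤ 4 * m := by
    intro x y z w m h hA hC
    have e : 4 * m = (x + y) ^ 3 + 3 * (x + y) * (x - y) ^ 2 + (z + w) ^ 3 +
        3 * (z + w) * (z - w) ^ 2 := by rw [← h]; ring
    have b1 : x + y ≤ (x + y) ^ 3 := by
      have : 1 ≤ (x + y) ^ 2 := by nlinarith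
      nlinarith
    have b2 : z + w ≤ (z + w) ^ 3 := by
      have : 1 ≤ (z + w) ^ 2 := by nlinarith
      nlinarith
    have sqabs : ∀ t : ℤ, |t| ≤ t ^ 2 := by
      intro t
      rcases eq_or_ne t 0 with rfl | ht
      · simp
      · have : 1 ≤ |t| := Int.one_le_abs ht
        nlinarith [sq_abs t]
    have b3 : |x - y| ≤ 3 * (x + y) * (x - y) ^ 2 := by
      have := sqabs (x - y)
      have h0 : 0 ≤ (x - y) ^ 2 := sq_nonneg _
      nlinarith
    have b4 : |z - w| ≤ 3 * (z + w) * (z - w) ^ 2 := by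
      have := sqabs (z - w)
      have h0 : 0 ≤ (z - w) ^ 2 := sq_nonneg _
      nlinarith
    have p1 := abs_nonneg (x - y)
    have p2 := abs_nonneg (z - w)
    have q1 := le_abs_self (x - y)
    have q2 := neg_abs_le (x - y)
    have q3 := le_abs_self (z - w)
    have q4 := neg_abs_le (z - w)
    refine ⟨abs_le.2 ⟨?_, ?_⟩, abs_le.2 ⟨?_, ?_⟩, abs_le.2 ⟨?_, ?_⟩, abs_le.2 ⟨?_, ?_⟩⟩ <;>
      linarith
  rcases pos_and_pos_or_neg_and_neg_of_mul_pos hp with ⟨h1, h2⟩ | ⟨h1, h2⟩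
  · have := main x y z w m h h1 h2
    have hm := le_abs_self m
    obtain ⟨a, b, c, d⟩ := this
    refine ⟨?_, ?_, ?_, ?_⟩ <;> linarith
  · have := main (-x) (-y) (-z) (-w) (-m) (by rw [← h]; ring) (by linarith) (by linarith)
    simp only [abs_neg] at this
    have hm := neg_abs_le m
    obtain ⟨a, b, c, d⟩ := this
    refine ⟨?_, ?_, ?_, ?_⟩ <;> linarith

/-- Two equal pairs are bounded as well. -/
lemma box_of_pairs {m x z : ℤ} (hm : m ≠ 0) (h : x ^ 3 + x ^ 3 + z ^ 3 + z ^ 3 = m) :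
    |x| ≤ 4 * |m| ∧ |z| ≤ 4 * |m| := by
  have e : (x + z) * (x ^ 2 - x * z + z ^ 2) * 2 = m := by rw [← h]; ring
  have hs : x + z ≠ 0 := by
    intro h0; rw [h0] at e; simp at e; exact hm e.symm
  have hq : 0 ≤ x ^ 2 - x * z + z ^ 2 := by nlinarith [sq_nonneg (x - z), sq_nonneg x, sq_nonneg z]
  have h1 : |m| = |x + z| * (x ^ 2 - x * z + z ^ 2) * 2 := by
    rw [← e, abs_mul, abs_mul, abs_of_nonneg hq]; norm_num
  have h2 : 1 ≤ |x + z| := Int.one_le_abs hs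
  have h3 : x ^ 2 - x * z + z ^ 2 ≤ |m| := by
    rw [h1]; nlinarith
  have sqabs : ∀ t : ℤ, |t| ≤ t ^ 2 := by
    intro t
    rcases eq_or_ne t 0 with rfl | ht
    · simp
    · have : 1 ≤ |t| := Int.one_le_abs ht
      nlinarith [sq_abs t]
  constructor
  · have := sqabs x
    nlinarith [sq_nonneg (x - 2 * z)]
  · have := sqabs z
    nlinarith [sq_nonneg (2 * x - z)]

end FourCubes95
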